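import Pool.Agent.J4H93.HN.Stm

/-! Project HN: from reciprocal sum one to Hahn's question (piece HA). -/

set_option autoImplicit false

namespace Pool.Agent.J4H17.HN

open Finset Pool.Agent.J4H93.HN

/-- One colour has sets of reciprocal sum `m` for every `m`. -/
theorem exists_colour (h : S_CR) (r : ℕ) (c : ℕ → Fin r) :
    ∃ i : Fin r, ∀ m : ℕ, ∃ F : Finset ℕ, (∀ n ∈ F, 0 < n ∧ c n = i) ∧ R F = m := by
  choose S col hS hR using fun N0 => h r c N0
  -- the sequence of bounds
  let N : ℕ → ℕ := fun j => Nat.rec 0 (fun _ x => max x ((S x).sup id)) j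
  have hNs : ∀ j, N (j + 1) = max (N j) ((S (N j)).sup id) := fun j => rfl
  have hmono : Monotone N := monotone_nat_of_le_succ fun j => by rw [hNs]; exact le_max_left _ _
  have hlow : ∀ j, ∀ n ∈ S (N j), N j < n := fun j n hn => (hS (N j) n hn).1
  have hup : ∀ j, ∀ n ∈ S (N j), n ≤ N (j + 1) := by
    intro j n hn
    rw [hNs]
    exact le_max_of_le_right (Finset.le_sup (f := id) hn)
  have hdis : ∀ j j', j < j' → Disjoint (S (N j)) (S (N j')) := by
    intro j j' hj
    rw [Finset.disjoint_left]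
    intro n hn hn'
    have h1 := hup j n hn
    have h2 := hlow j' n hn'
    have h3 : N (j + 1) ≤ N j' := hmono hj
    omega
  obtain ⟨i, hi⟩ := Finite.exists_infinite_fiber (fun j => col (N j))
  rw [Set.infinite_coe_iff] at hi
  refine ⟨i, fun m => ?_⟩
  obtain ⟨J, hJ, hJc⟩ := hi.exists_subset_card_eq m
  refine ⟨J.biUnion (fun j => S (N j)), ?_, ?_⟩
  · intro n hn
    obtain ⟨j, hj, hnj⟩ := mem_biUnion.1 hn
    have h1 := hS (N j) n hnj
    refine ⟨by omega, ?_⟩
    rw [h1.2]
    exact hJ hj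
  · unfold R
    rw [sum_biUnion]
    · have : ∀ j ∈ J, ∑ n ∈ S (N j), (1 : ℝ) / n = 1 := fun j _ => hR (N j)
      rw [sum_congr rfl this]
      simp [hJc]
    · intro j hj j' hj' hne
      rcases lt_or_gt_of_ne hne with h1 | h1
      · exact hdis j j' h1
      · exact (hdis j' j h1).symm

theorem t_HA : S_CR → S_HA := by
  intro h r c
  choose col hcol using fun k : ℕ => exists_colour h r (fun n => c (k.factorial * n))
  obtain ⟨i, hi⟩ := Finite.exists_infinite_fiber col
  rw [Set.infinite_coe_iff] at hi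
  refine ⟨i, fun q hq => ?_⟩
  obtain ⟨k, hk, hkq⟩ := hi.exists_gt q.den
  have hden : q.den ∣ k.factorial := Nat.dvd_factorial q.den_pos hkq.le
  obtain ⟨e, he⟩ := hden
  have hnum : 0 < q.num := Rat.num_pos.2 hq
  set m : ℕ := q.num.toNat * e with hm
  have hnumR : ((q.num.toNat : ℕ) : ℚ) = (q.num : ℚ) := by
    have : ((q.num.toNat : ℕ) : ℤ) = q.num := Int.toNat_of_nonneg hnum.le
    exact_mod_cast this
  have hfac0 : (k.factorial : ℚ) ≠ 0 := by exact_mod_cast (Nat.factorial_pos k).ne'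
  have hmq : (m : ℚ) / k.factorial = q := by
    have hd0 : (q.den : ℚ) ≠ 0 := by exact_mod_cast q.den_pos.ne'
    have hq' : q * q.den = q.num := Rat.mul_den_eq_num q
    rw [div_eq_iff hfac0, hm, he]
    push_cast
    rw [hnumR, ← hq']
    ring
  obtain ⟨F, hF, hFR⟩ := hcol k m
  have hki : col k = i := hk
  have hinj : Set.InjOn (fun n => k.factorial * n) F := by
    intro a _ b _ hab
    exact Nat.eq_of_mul_eq_mul_left (Nat.factorial_pos k) hab
  have hsum : ∑ a ∈ F.image (fun n => k.factorial * n), (1 : ℚ) / a = q := by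
    rw [sum_image hinj]
    have h1 : ∑ n ∈ F, (1 : ℚ) / n = m := by
      have : ((∑ n ∈ F, (1 : ℚ) / n : ℚ) : ℝ) = ((m : ℚ) : ℝ) := by
        push_cast
        exact hFR
      exact_mod_cast this
    rw [← hmq, ← h1, sum_div]
    refine sum_congr rfl fun n _ => ?_
    push_cast
    rw [div_div, mul_comm]
  refine ⟨F.image (fun n => k.factorial * n), ?_, ?_, hsum⟩
  · rw [Finset.nonempty_iff_ne_empty]
    intro hem
    rw [hem, sum_empty] at hsum
    exact hq.ne hsum
  · intro a ha
    obtain ⟨n, hn, rfl⟩ := mem_image.1 ha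
    have h1 := hF n hn
    refine ⟨Nat.mul_pos (Nat.factorial_pos k) h1.1, ?_⟩
    rw [← hki]
    exact h1.2

end Pool.Agent.J4H17.HN
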