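import Pool.Agent.J4H93.HN.Stm

/-! Project HN: the size of the products (piece SZ). -/

set_option autoImplicit false

namespace Pool.Agent.J4H17.HN

open Finset Pool.Agent.J4H93.HN

theorem t_SZ : S_SZ := by
  intro Y k P0 P1 τ hP n hn
  have hY0 : 0 < Y := by have := hP.hY; omega
  unfold SS at hn
  rw [mem_image] at hn
  obtain ⟨⟨T, U⟩, hTU, rfl⟩ := hn
  rw [mem_product, mem_powersetCard, mem_powersetCard] at hTU
  obtain ⟨⟨hT, hTc⟩, ⟨hU, hUc⟩⟩ := hTU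
  simp only at hT hTc hU hUc ⊢
  have hTp : ∀ p ∈ T, p.Prime := fun p hp => (hP.p0 p (hT hp)).1
  have hUp : ∀ p ∈ U, p.Prime := fun p hp => (hP.p1 p (hU hp)).1
  have hdis : Disjoint T U := Finset.disjoint_of_subset_left hT
    (Finset.disjoint_of_subset_right hU hP.dis)
  have hprod : (∏ p ∈ T, p) * ∏ q ∈ U, q = ∏ p ∈ T ∪ U, p := (prod_union hdis).symm
  have hTpos : 0 < ∏ p ∈ T, p := prod_pos fun p hp => (hTp p hp).pos
  have hTle : ∏ p ∈ T, p ≤ Y ^ 30 := by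
    have hk : k ≠ 0 := by have := hP.k2; omega
    have h1 : (∏ p ∈ T, p) ^ k ≤ (Y ^ 30) ^ k := by
      rw [← prod_pow]
      calc ∏ p ∈ T, p ^ k ≤ ∏ p ∈ T, Y ^ 30 := prod_le_prod' fun p hp => (hP.p0 p (hT hp)).2
        _ = (Y ^ 30) ^ k := by rw [prod_const, hTc]
    exact (Nat.pow_le_pow_iff_left hk).1 h1
  have hUle : ∏ q ∈ U, q ≤ Y ^ 330 := by
    calc ∏ q ∈ U, q ≤ ∏ q ∈ U, Y ^ 30 := prod_le_prod' fun q hq => (hP.p1 q (hU hq)).2.2
      _ = Y ^ 330 := by rw [prod_const, hUc, ← pow_mul]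
  have hUge : Y ^ 319 ≤ ∏ q ∈ U, q := by
    calc Y ^ 319 = ∏ q ∈ U, Y ^ 29 := by rw [prod_const, hUc, ← pow_mul]
      _ ≤ ∏ q ∈ U, q := prod_le_prod' fun q hq => (hP.p1 q (hU hq)).2.1.le
  refine ⟨?_, ?_, ?_, ?_⟩
  · calc Y ^ 319 ≤ ∏ q ∈ U, q := hUge
      _ = 1 * ∏ q ∈ U, q := (one_mul _).symm
      _ ≤ (∏ p ∈ T, p) * ∏ q ∈ U, q := Nat.mul_le_mul_right _ hTpos
  · calc (∏ p ∈ T, p) * ∏ q ∈ U, q ≤ Y ^ 30 * Y ^ 330 := Nat.mul_le_mul hTle hUle
      _ = Y ^ 360 := by rw [← pow_add]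
  · rw [hprod]
    refine Finset.squarefree_prod_of_pairwise_isCoprime ?_ ?_
    · intro a ha b hb hab
      have hap : a.Prime := (mem_union.1 ha).elim (hTp a) (hUp a)
      have hbp : b.Prime := (mem_union.1 hb).elim (hTp b) (hUp b)
      exact Nat.coprime_iff_isRelPrime.1 ((Nat.coprime_primes hap hbp).2 hab)
    · intro a ha
      have hap : a.Prime := (mem_union.1 ha).elim (hTp a) (hUp a)
      exact hap.squarefree
  · intro p hp hdvd
    rw [hprod] at hdvd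
    obtain ⟨a, ha, hpa⟩ := (Prime.dvd_finsetProd_iff hp.prime _).1 hdvd
    have hap : a.Prime := (mem_union.1 ha).elim (hTp a) (hUp a)
    have : p = a := (Nat.prime_dvd_prime_iff_eq hp hap).1 hpa
    rw [this]
    exact Finset.union_subset_union hT hU ha

end Pool.Agent.J4H17.HN
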