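import Pool.Agent.J4H93.HN.Stm

/-! Project HN: the tail of the random subset (piece TAIL). -/

set_option autoImplicit false

namespace Pool.Agent.J4H17.HN

open Finset Pool.Agent.J4H93.HN

theorem exp_le_lin (t : ℝ) (h0 : 0 ≤ t) (h1 : t ≤ 1) :
    Real.exp t ≤ 1 + (Real.exp 1 - 1) * t := by
  have h := convexOn_exp.2 (Set.mem_univ (1 : ℝ)) (Set.mem_univ (0 : ℝ)) h0
    (by linarith : (0 : ℝ) ≤ 1 - t) (by ring)
  simp only [smul_eq_mul, mul_one, mul_zero, add_zero, Real.exp_zero] at h
  linarith

theorem t_TAIL : S_TAIL := by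
  intro B N hN hB hR
  have hR0 : 0 < R B := by linarith
  set q : ℝ := 1 / R B with hq
  have hq0 : 0 < q := by positivity
  have hqR : q * R B = 1 := by rw [hq]; field_simp
  have hq1 : q ≤ 1 / 2 := by
    rw [hq]; exact one_div_le_one_div_of_le (by norm_num) hR
  have hq2 : 0 ≤ 1 - q := by linarith
  have hNR : (0 : ℝ) < N := by exact_mod_cast hN
  have hwt : ∀ S, 0 ≤ wt B q S := fun S => by unfold wt; positivity
  constructor
  · have hterm : ∀ S ∈ B.powerset, wt B q S * Real.exp (N * (R S - 2)) =
        Real.exp (-2 * N) * ((∏ n ∈ S, q * Real.exp (N / n)) * ∏ n ∈ B \ S, (1 - q)) := by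
      intro S hS
      have hSB := mem_powerset.1 hS
      rw [prod_const, card_sdiff_of_subset hSB, prod_mul_distrib, prod_const, ← Real.exp_sum]
      have e : (N : ℝ) * (R S - 2) = -2 * N + ∑ n ∈ S, (N : ℝ) / n := by
        have : (N : ℝ) * R S = ∑ n ∈ S, (N : ℝ) / n := by
          unfold R; rw [mul_sum]; exact sum_congr rfl fun n _ => by ring
        rw [← this]; ring
      rw [e, Real.exp_add]
      unfold wt
      ring
    calc ∑ S ∈ B.powerset.filter (fun S => 2 ≤ R S), wt B q S
        ≤ ∑ S ∈ B.powerset.filter (fun S => 2 ≤ R S), wt B q S * Real.exp (N * (R S - 2)) := by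
          refine sum_le_sum fun S hS => ?_
          refine le_mul_of_one_le_right (hwt S) (Real.one_le_exp ?_)
          have := (mem_filter.1 hS).2
          exact mul_nonneg hNR.le (by linarith)
      _ ≤ ∑ S ∈ B.powerset, wt B q S * Real.exp (N * (R S - 2)) :=
          sum_le_sum_of_subset_of_nonneg (filter_subset _ _)
            (fun S _ _ => mul_nonneg (hwt S) (Real.exp_pos _).le)
      _ = Real.exp (-2 * N) * ∏ n ∈ B, (q * Real.exp (N / n) + (1 - q)) := by
          rw [sum_congr rfl hterm, ← mul_sum, prod_add]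
      _ ≤ Real.exp (-2 * N) * ∏ n ∈ B, Real.exp (q * ((Real.exp 1 - 1) * (N / n))) := by
          refine mul_le_mul_of_nonneg_left ?_ (Real.exp_pos _).le
          refine prod_le_prod (fun n _ => by positivity) fun n hn => ?_
          have hnN : (N : ℝ) ≤ n := by exact_mod_cast hB n hn
          have hn0 : (0 : ℝ) < n := by linarith
          have h1 := exp_le_lin (N / n) (by positivity) (by rw [div_le_one hn0]; exact hnN)
          have h2 := mul_le_mul_of_nonneg_left h1 hq0.le
          have h3 := Real.add_one_le_exp (q * ((Real.exp 1 - 1) * (N / n)))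
          calc q * Real.exp (N / n) + (1 - q) ≤
                q * (1 + (Real.exp 1 - 1) * (N / n)) + (1 - q) := by linarith
            _ = q * ((Real.exp 1 - 1) * (N / n)) + 1 := by ring
            _ ≤ _ := h3
      _ = Real.exp (-2 * N + (Real.exp 1 - 1) * N) := by
          rw [← Real.exp_sum, ← Real.exp_add]
          congr 2
          calc ∑ n ∈ B, q * ((Real.exp 1 - 1) * (N / n))
              = (Real.exp 1 - 1) * N * (q * R B) := by
                unfold R; rw [mul_sum, mul_sum]; exact sum_congr rfl fun n _ => by ring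
            _ = (Real.exp 1 - 1) * N := by rw [hqR, mul_one]
      _ ≤ Real.exp (-(N : ℝ) / 4) := by
          refine Real.exp_le_exp.2 ?_
          have he := Real.exp_one_lt_d9
          nlinarith
  · have hcard : (N : ℝ) * R B ≤ B.card := by
      unfold R
      rw [mul_sum]
      calc ∑ n ∈ B, (N : ℝ) * (1 / n) ≤ ∑ n ∈ B, (1 : ℝ) := by
            refine sum_le_sum fun n hn => ?_
            have hnN : (N : ℝ) ≤ n := by exact_mod_cast hB n hn
            have hn0 : (0 : ℝ) < n := by linarith
            rw [mul_one_div, div_le_one hn0]; exact hnN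
        _ = B.card := by simp
    have h1 : (N : ℝ) ≤ q * B.card := by
      calc (N : ℝ) = q * (N * R B) := by
            calc (N : ℝ) = N * (q * R B) := by rw [hqR, mul_one]
              _ = q * (N * R B) := by ring
        _ ≤ q * B.card := mul_le_mul_of_nonneg_left hcard hq0.le
    unfold wt
    rw [card_empty, pow_zero, one_mul, Nat.sub_zero]
    calc (1 - q) ^ B.card ≤ (Real.exp (-q)) ^ B.card := by
          refine pow_le_pow_left₀ hq2 ?_ _
          have := Real.add_one_le_exp (-q)
          linarith
      _ = Real.exp (-(q * B.card)) := by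
          rw [← Real.exp_nat_mul]; congr 1; ring
      _ ≤ Real.exp (-(N : ℝ)) := Real.exp_le_exp.2 (by linarith)

end Pool.Agent.J4H17.HN
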